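import Pool.Agent.Q149.HeilData

set_option autoImplicit false

/-!
MP_6b0309_co, question Q1: the conjectured equality `Δ'_k(α (k - 1)) = 1 / (2 (α - 1))` is false,
already for `k = 6` and `α = 3`.
-/

namespace Pool.Agent.Results.MP_6b0309_co.FifteenPoints

open MeasureTheory

/-- The Euclidean plane. -/
abbrev Plane := EuclideanSpace ℝ (Fin 2)

/-- The rectangle `R_d = [0, d] × [0, d⁻¹]`. -/
def rect (d : ℝ) : Set Plane := {p | 0 ≤ p 0 ∧ p 0 ≤ d ∧ 0 ≤ p 1 ∧ p 1 ≤ d⁻¹}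

/-- The area of the convex hull of a set. -/
noncomputable def hullArea (S : Set Plane) : ℝ := (volume (convexHull ℝ S)).toReal

/-- `A'_k(P)`: the smallest area of the convex hull of a `k`-element subset of `P`. -/
noncomputable def minHullArea (k : ℕ) (P : Finset Plane) : ℝ :=
  sInf {a : ℝ | ∃ S : Finset Plane, S ⊆ P ∧ S.card = k ∧ a = hullArea S}

/-- `Δ'_k(n)`: the supremum of `A'_k(P)` over `0 < d ≤ 1` and the `n`-point subsets `P` of
`R_d`. -/
noncomputable def Delta (k n : ℕ) : ℝ :=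
  sSup {a : ℝ | ∃ d : ℝ, 0 < d ∧ d ≤ 1 ∧ ∃ P : Finset Plane,
    (P : Set Plane) ⊆ rect d ∧ P.card = n ∧ a = minHullArea k P}

lemma rect_eq (d : ℝ) : rect d = WithLp.ofLp ⁻¹' (Set.Icc (![0, 0] : Fin 2 → ℝ) ![d, d⁻¹]) := by
  ext p
  simp only [rect, Set.mem_ofPred_eq, Set.mem_preimage, Set.mem_Icc, Pi.le_def, Fin.forall_fin_two,
    Matrix.cons_val_zero, Matrix.cons_val_one]
  tauto

lemma rect_convex (d : ℝ) : Convex ℝ (rect d) := by
  intro p hp q hq s t hs ht hst
  simp only [rect, Set.mem_ofPred_eq, PiLp.add_apply, PiLp.smul_apply, smul_eq_mul] at *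
  obtain ⟨h1, h2, h3, h4⟩ := hp
  obtain ⟨g1, g2, g3, g4⟩ := hq
  have e : s = 1 - t := by linarith
  subst e
  refine ⟨by positivity, ?_, by positivity, ?_⟩ <;> nlinarith

lemma rect_volume (d : ℝ) (hd : 0 < d) : volume (rect d) = 1 := by
  rw [rect_eq, (PiLp.volume_preserving_ofLp (Fin 2)).measure_preimage
    measurableSet_Icc.nullMeasurableSet, Real.volume_Icc_pi]
  simp only [Fin.prod_univ_two, Matrix.cons_val_zero, Matrix.cons_val_one, sub_zero]
  rw [← ENNReal.ofReal_mul hd.le, mul_inv_cancel₀ hd.ne', ENNReal.ofReal_one]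

lemma hullArea_le_one (d : ℝ) (hd : 0 < d) (S : Set Plane) (hS : S ⊆ rect d) :
    hullArea S ≤ 1 := by
  have h1 : volume (convexHull ℝ S) ≤ 1 := by
    rw [← rect_volume d hd]
    exact measure_mono (convexHull_min hS (rect_convex d))
  have h2 := ENNReal.toReal_mono ENNReal.one_ne_top h1
  rw [ENNReal.toReal_one] at h2
  exact h2

/-- The fifteen points of the example, multiplied by `30`. -/
def points : List (ℤ × ℤ) :=
  [(3, 0), (13, 0), (21, 0), (30, 0), (0, 7), (30, 9), (13, 13), (0, 16), (17, 17), (30, 17),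
    (0, 26), (30, 27), (4, 30), (14, 30), (23, 30)]

/-- The fifteen points of the unit square. -/
noncomputable def config : Finset Plane :=
  points.toFinset.map ⟨fun a : ℤ × ℤ => !₂[(a.1 : ℝ) / 30, (a.2 : ℝ) / 30],
    Q149.Fan.pt_inj 30 (by norm_num)⟩

lemma config_card : config.card = 15 := by
  rw [config, Finset.card_map]
  decide

lemma config_subset : (config : Set Plane) ⊆ rect 1 := by
  intro p hp
  rw [config, Finset.mem_coe, Finset.mem_map] at hp
  obtain ⟨a, ha, rfl⟩ := hp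
  have h : 0 ≤ a.1 ∧ a.1 ≤ 30 ∧ 0 ≤ a.2 ∧ a.2 ≤ 30 := by
    revert a
    decide
  obtain ⟨h1, h2, h3, h4⟩ := h
  have g1 : (0 : ℝ) ≤ a.1 := by exact_mod_cast h1
  have g2 : (a.1 : ℝ) ≤ 30 := by exact_mod_cast h2
  have g3 : (0 : ℝ) ≤ a.2 := by exact_mod_cast h3
  have g4 : (a.2 : ℝ) ≤ 30 := by exact_mod_cast h4
  simp only [rect, Set.mem_ofPred_eq, inv_one]
  refine ⟨?_, ?_, ?_, ?_⟩
  · change (0 : ℝ) ≤ (a.1 : ℝ) / 30
    positivity
  · change (a.1 : ℝ) / 30 ≤ 1
    linarith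
  · change (0 : ℝ) ≤ (a.2 : ℝ) / 30
    positivity
  · change (a.2 : ℝ) / 30 ≤ 1
    linarith

/-- Every six of the fifteen points have a convex hull of area at least `91 / 360`. -/
lemma config_hull (S : Finset Plane) (hS : S ⊆ config) (hc : S.card = 6) :
    91 / 360 ≤ hullArea S := by
  obtain ⟨S', hS', rfl⟩ := Finset.subset_map_iff.1 hS
  rw [Finset.card_map] at hc
  obtain ⟨v, hv, m, hm, hp, hvm, hf⟩ := Q149.Heil.chain_spec Q149.Heil.data Q149.Heil.data_ok S'
    (fun a ha => List.mem_toFinset.1 (hS' ha)) hc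
  have h1 := Q149.Fan.vol_lower 30 (by norm_num) v m hp hvm
    ((S'.map ⟨fun a : ℤ × ℤ => !₂[(a.1 : ℝ) / 30, (a.2 : ℝ) / 30],
      Q149.Fan.pt_inj 30 (by norm_num)⟩ : Finset Plane) : Set Plane)
    (by
      rw [Finset.mem_coe, Finset.mem_map]
      exact ⟨v, hv, rfl⟩)
    (fun a ha => by
      rw [Finset.mem_coe, Finset.mem_map]
      exact ⟨a, hm a ha, rfl⟩)
  have hfin : volume (convexHull ℝ ((S'.map ⟨fun a : ℤ × ℤ => !₂[(a.1 : ℝ) / 30, (a.2 : ℝ) / 30],
      Q149.Fan.pt_inj 30 (by norm_num)⟩ : Finset Plane) : Set Plane)) ≠ ⊤ := by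
    have h2 : volume (convexHull ℝ ((S'.map ⟨fun a : ℤ × ℤ => !₂[(a.1 : ℝ) / 30, (a.2 : ℝ) / 30],
      Q149.Fan.pt_inj 30 (by norm_num)⟩ : Finset Plane) : Set Plane)) ≤ 1 := by
      rw [← rect_volume 1 one_pos]
      refine measure_mono (convexHull_min ?_ (rect_convex 1))
      exact (Finset.coe_subset.2 hS).trans config_subset
    exact ne_top_of_le_ne_top ENNReal.one_ne_top h2
  rw [hullArea]
  have h3 := (ENNReal.ofReal_le_iff_le_toReal hfin).1 h1
  refine le_trans ?_ h3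
  have h4 : (455 : ℝ) ≤ (Q149.Fan.fanZ v m : ℝ) := by exact_mod_cast hf
  norm_num
  linarith

/-- **Disproof of the conjecture.** There are fifteen points in the unit square every six of which
have a convex hull of area at least `91 / 360 > 1 / 4`; hence `Δ'_6(15) ≥ 91 / 360`, whereas the
conjecture, for `k = 6` and `α = 3`, predicts `Δ'_6(15) = 1 / 4`. -/
theorem result :
    (∃ P : Finset Plane, (P : Set Plane) ⊆ rect 1 ∧ P.card = 3 * (6 - 1) ∧
      ∀ S : Finset Plane, S ⊆ P → S.card = 6 → 91 / 360 ≤ hullArea S) ∧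
    91 / 360 ≤ Delta 6 (3 * (6 - 1)) ∧
    ¬ (∀ k α : ℕ, 3 ≤ k → 2 ≤ α → α ≤ k - 1 →
      Delta k (α * (k - 1)) = 1 / (2 * ((α : ℝ) - 1))) := by
  have h1 : 91 / 360 ≤ Delta 6 (3 * (6 - 1)) := by
    have h2 : 91 / 360 ≤ minHullArea 6 config := by
      refine le_csInf ?_ ?_
      · obtain ⟨S, hS, hc⟩ := Finset.exists_subset_card_eq (s := config) (n := 6)
          (by rw [config_card]; norm_num)
        exact ⟨hullArea S, S, hS, hc, rfl⟩
      · rintro _ ⟨S, hS, hc, rfl⟩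
        exact config_hull S hS hc
    refine le_trans h2 (le_csSup ?_ ?_)
    swap
    · exact ⟨1, one_pos, le_refl _, config, config_subset, config_card, rfl⟩
    refine ⟨1, ?_⟩
    rintro _ ⟨d, hd, -, P, hP, hc, rfl⟩
    obtain ⟨S, hS, hc'⟩ := Finset.exists_subset_card_eq (s := P) (n := 6) (by rw [hc]; norm_num)
    have h3 : minHullArea 6 P ≤ hullArea S := by
      refine csInf_le ⟨0, ?_⟩ ⟨S, hS, hc', rfl⟩
      rintro _ ⟨T, -, -, rfl⟩
      exact ENNReal.toReal_nonneg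
    exact h3.trans (hullArea_le_one d hd S ((Finset.coe_subset.2 hS).trans hP))
  refine ⟨⟨config, config_subset, config_card, config_hull⟩, h1, fun h => ?_⟩
  have h3 := h 6 3 (by norm_num) (by norm_num) (by norm_num)
  rw [h3] at h1
  norm_num at h1

end Pool.Agent.Results.MP_6b0309_co.FifteenPoints
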